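import Mathlib

/-!
Pulling a Cayley graph of an elementary abelian group back to a power of a finite group.
-/

namespace Pool.Agent.P.MP_ba7db8_lc.Fix

set_option maxHeartbeats 400000

variable {G : Type*} [Group G]

theorem exists_lg [Finite G] {z : G} {p : ℕ} (hz : orderOf z = p) :
    ∃ lg : G → ZMod p, ∀ (u : G) (k : ℕ), lg (u * z ^ k) = lg u + k := by
  have h : ∀ g : G, ∃ k : ℕ, z ^ k = ((g : G ⧸ Subgroup.zpowers z).out)⁻¹ * g := by
    intro g
    have : ((g : G ⧸ Subgroup.zpowers z).out)⁻¹ * g ∈ Subgroup.zpowers z :=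
      QuotientGroup.eq.1 (QuotientGroup.out_eq' _)
    exact (mem_powers_iff_mem_zpowers.2 this)
  choose k hk using h
  refine ⟨fun g => k g, fun u j => ?_⟩
  have e : ((u * z ^ j : G) : G ⧸ Subgroup.zpowers z) = u :=
    QuotientGroup.mk_mul_of_mem _ (Subgroup.pow_mem _ (Subgroup.mem_zpowers z) j)
  have e2 : z ^ k (u * z ^ j) = z ^ (k u + j) := by rw [hk, e, pow_add, hk, mul_assoc]
  rw [pow_eq_pow_iff_modEq, hz, ← ZMod.natCast_eq_natCast_iff] at e2
  simpa using e2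

variable {p n : ℕ} {Γ : Type} [AddCommGroup Γ]

/-- The connection set in `G ^ n`. -/
def conn (z : G) (lg : G → ZMod p) (π : (Fin n → ZMod p) →+ Γ) (Bd : Γ → Prop) :
    Set (Fin n → G) :=
  {h | (∀ i, h i ∈ Subgroup.zpowers z) ∧ Bd (π fun i => lg (h i) - lg 1)}

theorem lg_mul [Finite G] {z : G} {lg : G → ZMod p}
    (hlg : ∀ (u : G) (k : ℕ), lg (u * z ^ k) = lg u + k) {u v : G}
    (h : u⁻¹ * v ∈ Subgroup.zpowers z) : lg (u⁻¹ * v) - lg 1 = lg v - lg u := by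
  obtain ⟨k, hk⟩ := mem_powers_iff_mem_zpowers.2 h
  have hk : z ^ k = u⁻¹ * v := hk
  have e1 := hlg 1 k
  have e2 := hlg u k
  rw [one_mul, hk] at e1
  rw [hk, mul_inv_cancel_left] at e2
  rw [e1, e2]
  ring

theorem mem_conn [Finite G] {z : G} {lg : G → ZMod p}
    (hlg : ∀ (u : G) (k : ℕ), lg (u * z ^ k) = lg u + k) (π : (Fin n → ZMod p) →+ Γ)
    (Bd : Γ → Prop) (u v : Fin n → G) : u⁻¹ * v ∈ conn z lg π Bd ↔
      (∀ i, (u i)⁻¹ * v i ∈ Subgroup.zpowers z) ∧ Bd (π fun i => lg (v i) - lg (u i)) := by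
  refine and_congr_right fun h => ?_
  have : (fun i => lg ((u⁻¹ * v) i) - lg 1) = fun i => lg (v i) - lg (u i) :=
    funext fun i => lg_mul hlg (h i)
  rw [this]

theorem one_not_mem_conn (z : G) (lg : G → ZMod p) (π : (Fin n → ZMod p) →+ Γ) {Bd : Γ → Prop}
    (h0 : ¬ Bd 0) : 1 ∉ conn z lg π Bd := by
  rintro ⟨-, h⟩
  apply h0
  have : (fun i : Fin n => lg ((1 : Fin n → G) i) - lg 1) = 0 := funext fun i => by simp
  rwa [this, map_zero] at h

theorem inv_mem_conn [Finite G] {z : G} {lg : G → ZMod p}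
    (hlg : ∀ (u : G) (k : ℕ), lg (u * z ^ k) = lg u + k) (π : (Fin n → ZMod p) →+ Γ)
    {Bd : Γ → Prop} (hs : ∀ w, Bd w → Bd (-w)) {h : Fin n → G} (hh : h ∈ conn z lg π Bd) :
    h⁻¹ ∈ conn z lg π Bd := by
  rw [← mul_one h⁻¹, mem_conn hlg]
  refine ⟨fun i => by simpa using hh.1 i, ?_⟩
  have := hs _ hh.2
  rw [← map_neg] at this
  convert this using 2
  funext i
  simp

theorem conn_inv [Finite G] {z : G} {lg : G → ZMod p}
    (hlg : ∀ (u : G) (k : ℕ), lg (u * z ^ k) = lg u + k) (π : (Fin n → ZMod p) →+ Γ)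
    {Bd : Γ → Prop} (hs : ∀ w, Bd w → Bd (-w)) : (conn z lg π Bd)⁻¹ = conn z lg π Bd := by
  ext h
  exact ⟨fun hh => by simpa using inv_mem_conn hlg π hs (Set.mem_inv.1 hh),
    fun hh => Set.mem_inv.2 (inv_mem_conn hlg π hs hh)⟩

theorem adj_conn [Finite G] {z : G} {lg : G → ZMod p}
    (hlg : ∀ (u : G) (k : ℕ), lg (u * z ^ k) = lg u + k) (π : (Fin n → ZMod p) →+ Γ)
    {Bd : Γ → Prop} (h0 : ¬ Bd 0) (hs : ∀ w, Bd w → Bd (-w)) (u v : Fin n → G) :
    (SimpleGraph.mulCayley (conn z lg π Bd)).Adj u v ↔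
      (∀ i, (u i)⁻¹ * v i ∈ Subgroup.zpowers z) ∧ Bd (π fun i => lg (v i) - lg (u i)) := by
  rw [SimpleGraph.mulCayley_adj, ← mem_conn hlg]
  constructor
  · rintro ⟨-, h | h⟩
    · exact h
    · simpa using inv_mem_conn hlg π hs h
  · intro h
    refine ⟨?_, Or.inl h⟩
    rintro rfl
    rw [inv_mul_cancel] at h
    exact one_not_mem_conn z lg π h0 h

theorem colorable_conn [Finite G] [NeZero p] {z : G} {lg : G → ZMod p}
    (hlg : ∀ (u : G) (k : ℕ), lg (u * z ^ k) = lg u + k) (π : (Fin n → ZMod p) →+ Γ)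
    (hπ : Function.Surjective π) {Bd : Γ → Prop} (h0 : ¬ Bd 0) (hs : ∀ w, Bd w → Bd (-w))
    (K : ℕ) : (SimpleGraph.mulCayley (conn z lg π Bd)).Colorable K ↔
      ∃ c : Γ → Fin K, ∀ a b, Bd (b - a) → c a ≠ c b := by
  constructor
  · rintro ⟨C⟩
    choose s hs' using hπ
    refine ⟨fun a => C fun i => z ^ (s a i).val, fun a b hab => C.valid ?_⟩
    rw [adj_conn hlg π h0 hs]
    refine ⟨fun i => mul_mem (inv_mem (Subgroup.pow_mem _ (Subgroup.mem_zpowers z) _))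
      (Subgroup.pow_mem _ (Subgroup.mem_zpowers z) _), ?_⟩
    rw [← hs' a, ← hs' b, ← map_sub] at hab
    convert hab using 2
    funext i
    have e1 := hlg 1 (s a i).val
    have e2 := hlg 1 (s b i).val
    rw [one_mul, ZMod.natCast_zmod_val] at e1 e2
    rw [e1, e2, Pi.sub_apply]
    ring
  · rintro ⟨c, hc⟩
    refine ⟨SimpleGraph.Coloring.mk (fun u => c (π fun i => lg (u i))) fun {u v} huv => ?_⟩
    refine hc _ _ ?_
    rw [← map_sub]
    exact ((adj_conn hlg π h0 hs u v).1 huv).2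

end Pool.Agent.P.MP_ba7db8_lc.Fix
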