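import Mathlib

/-!
Rigidity: a family whose differences are differences of unit vectors is a simplex.
-/

namespace Pool.Agent.P.MP_ba7db8_lc.Fix

set_option maxHeartbeats 400000

variable {F : Type} [Field F] {B : Type} [DecidableEq B]

/-- The vector `e_{t'} - e_t`. -/
def Ev (F : Type) [Field F] {B : Type} [DecidableEq B] (t t' : B) : B → F :=
  Pi.single t' 1 - Pi.single t 1

/-- A difference of two different unit vectors. -/
def Edge (y : B → F) : Prop := ∃ t t', t ≠ t' ∧ y = Ev F t t'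

theorem Ev_left {t t' : B} (h : t ≠ t') : Ev F t t' t = -1 := by simp [Ev, h]
theorem Ev_right {t t' : B} (h : t ≠ t') : Ev F t t' t' = 1 := by simp [Ev, h.symm]
theorem Ev_other {t t' w : B} (h : w ≠ t) (h' : w ≠ t') : Ev F t t' w = 0 := by simp [Ev, h, h']

theorem Edge.ne_zero {y : B → F} (h : Edge y) : y ≠ 0 := by
  obtain ⟨t, t', hne, rfl⟩ := h
  intro e
  have := congrFun e t'
  rw [Ev_right hne] at this
  exact one_ne_zero this

theorem Edge.supp {y : B → F} (h : Edge y) {a b w : B} (ha : y a ≠ 0) (hb : y b ≠ 0) (hab : a ≠ b)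
    (h1 : w ≠ a) (h2 : w ≠ b) : y w = 0 := by
  obtain ⟨t, t', hne, rfl⟩ := h
  have e1 : a = t ∨ a = t' := by
    by_contra hcon
    push Not at hcon
    exact ha (Ev_other hcon.1 hcon.2)
  have e2 : b = t ∨ b = t' := by
    by_contra hcon
    push Not at hcon
    exact hb (Ev_other hcon.1 hcon.2)
  apply Ev_other <;> grind

theorem unit_of_zero {y : B → F} {ε : F} {t0 : B} (hε : ε ≠ 0) (h0 : y t0 = 0)
    (h : Edge (y - Pi.single t0 ε)) : ∃ m, y = Pi.single m ε := by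
  obtain ⟨t, t', hne, h⟩ := h
  have h1 := congrFun h t0
  rw [Pi.sub_apply, h0, Pi.single_eq_same, zero_sub] at h1
  rw [sub_eq_iff_eq_add] at h
  by_cases a : t0 = t
  · subst a
    rw [Ev_left hne, neg_inj] at h1
    exact ⟨t', by rw [h, h1, Ev]; abel⟩
  · by_cases b : t0 = t'
    · subst b
      rw [Ev_right hne, neg_eq_iff_eq_neg] at h1
      exact ⟨t, by rw [h, h1, Ev, Pi.single_neg, Pi.single_neg]; abel⟩
    · rw [Ev_other a b, neg_eq_zero] at h1
      exact absurd h1 hε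

theorem off_two {y : B → F} {ε : F} {t1 t2 t3 w : B} (h21 : t2 ≠ t1) (h31 : t3 ≠ t1)
    (h23 : t2 ≠ t3) (a2 : y t2 ≠ 0) (a3 : y t3 ≠ 0) (h : Edge (y - Pi.single t1 ε)) (w2 : w ≠ t2)
    (w3 : w ≠ t3) : y w = (Pi.single t1 ε : B → F) w :=
  sub_eq_zero.1 (h.supp (by simpa [h21] using a2) (by simpa [h31] using a3) h23 w2 w3)

theorem triple {y y' : B → F} (h1 : Edge y) (h2 : Edge y') (h3 : Edge (y' - y)) :
    y' = -y ∨ ∃ (s : B → F) (ε : F) (t1 t2 t3 : B), ε ≠ 0 ∧ 0 = s + Pi.single t1 ε ∧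
      y = s + Pi.single t2 ε ∧ y' = s + Pi.single t3 ε := by
  obtain ⟨c, a, hca, rfl⟩ := h1
  have up : ∀ m, y' + Pi.single c 1 = Pi.single m 1 → ∃ (s : B → F) (ε : F) (t1 t2 t3 : B),
      ε ≠ 0 ∧ 0 = s + Pi.single t1 ε ∧ Ev F c a = s + Pi.single t2 ε ∧
        y' = s + Pi.single t3 ε := fun m hm =>
    ⟨-Pi.single c 1, 1, c, a, m, one_ne_zero, by abel, by rw [Ev]; abel, by rw [← hm]; abel⟩
  have dn : ∀ m, y' - Pi.single a 1 = Pi.single m (-1) → ∃ (s : B → F) (ε : F) (t1 t2 t3 : B),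
      ε ≠ 0 ∧ 0 = s + Pi.single t1 ε ∧ Ev F c a = s + Pi.single t2 ε ∧
        y' = s + Pi.single t3 ε := fun m hm =>
    ⟨Pi.single a 1, -1, a, c, m, neg_ne_zero.2 one_ne_zero, by rw [Pi.single_neg]; abel,
      by rw [Ev, Pi.single_neg]; abel, by rw [← hm]; abel⟩
  by_cases a1 : (y' + Pi.single c 1 : B → F) c = 0
  · obtain ⟨m, hm⟩ := unit_of_zero one_ne_zero a1 (by rwa [add_sub_cancel_right])
    exact Or.inr (up m hm)
  by_cases a2 : (y' + Pi.single c 1 : B → F) a = 0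
  · obtain ⟨m, hm⟩ := unit_of_zero one_ne_zero a2 (by convert h3 using 1; rw [Ev]; abel)
    exact Or.inr (up m hm)
  by_cases a3 : (y' - Pi.single a 1 : B → F) a = 0
  · obtain ⟨m, hm⟩ := unit_of_zero (neg_ne_zero.2 one_ne_zero) a3
      (by convert h2 using 1; rw [Pi.single_neg]; abel)
    exact Or.inr (dn m hm)
  by_cases a4 : (y' - Pi.single a 1 : B → F) c = 0
  · obtain ⟨m, hm⟩ := unit_of_zero (neg_ne_zero.2 one_ne_zero) a4
      (by convert h3 using 1; rw [Ev, Pi.single_neg]; abel)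
    exact Or.inr (dn m hm)
  left
  obtain ⟨c', a', hne, rfl⟩ := h2
  have b1 : c ≠ c' := by
    rintro rfl
    exact a1 (by simp [Ev_left hne])
  have b3 : a ≠ a' := by
    rintro rfl
    exact a3 (by simp [Ev_right hne])
  have b2 : a = c' := by
    by_contra e
    exact a2 (by simp [Ev_other e b3, hca.symm])
  have b4 : c = a' := by
    by_contra e
    exact a4 (by simp [Ev_other b1 e, hca])
  rw [← b2, ← b4, Ev, Ev]
  abel

theorem exists_ne_four [Fintype B] (h5 : 5 ≤ Fintype.card B) (a b c d : B) :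
    ∃ e, e ≠ a ∧ e ≠ b ∧ e ≠ c ∧ e ≠ d := by
  by_contra hcon
  push Not at hcon
  have : (Finset.univ : Finset B) ⊆ {a, b, c, d} := by
    intro e _
    simp only [Finset.mem_insert, Finset.mem_singleton]
    by_contra h
    push Not at h
    exact h.2.2.2 (hcon e h.1 h.2.1 h.2.2.1)
  have h1 := Finset.card_le_card this
  have h2 : ({a, b, c, d} : Finset B).card ≤ 4 := Finset.card_le_four
  rw [Finset.card_univ] at h1
  omega

theorem star [Fintype B] (h5 : 5 ≤ Fintype.card B) {V : Type} (part : V → B) (sec : B → V)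
    (hsec : ∀ b, part (sec b) = b) (ψ : V → B → F)
    (h : ∀ v v', part v ≠ part v' → Edge (ψ v' - ψ v)) :
    ∃ (s : B → F) (ε : F) (τ : B → B), ε ≠ 0 ∧ Function.Bijective τ ∧
      ∀ v, ψ v = s + Pi.single (τ (part v)) ε := by
  have hb : ∀ v b, b ≠ part v → Edge (ψ v - ψ (sec b)) := fun v b hne => h _ _ (by rwa [hsec])
  have hχ : ∀ b b', b ≠ b' → Edge (ψ (sec b') - ψ (sec b)) := fun b b' hne =>
    hb _ _ (by rwa [hsec])
  have hinj : ∀ v b, b ≠ part v → ψ v ≠ ψ (sec b) := fun v b hne e =>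
    (hb v b hne).ne_zero (sub_eq_zero.2 e)
  have : Nonempty B := Fintype.card_pos_iff.1 (by omega)
  obtain ⟨s, ε, b1, b2, b3, t1, t2, t3, hε, n21, n31, n32, e1, e2, e3⟩ :
      ∃ (s : B → F) (ε : F) (b1 b2 b3 t1 t2 t3 : B), ε ≠ 0 ∧ b2 ≠ b1 ∧ b3 ≠ b1 ∧ b3 ≠ b2 ∧
        ψ (sec b1) = s + Pi.single t1 ε ∧ ψ (sec b2) = s + Pi.single t2 ε ∧
        ψ (sec b3) = s + Pi.single t3 ε := by
    obtain ⟨b1⟩ := this
    obtain ⟨b2, n21, -⟩ := exists_ne_four h5 b1 b1 b1 b1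
    have key : ∀ b, b ≠ b1 → b ≠ b2 → ψ (sec b) - ψ (sec b1) = -(ψ (sec b2) - ψ (sec b1)) ∨
        ∃ (s : B → F) (ε : F) (b1 b2 b3 t1 t2 t3 : B), ε ≠ 0 ∧ b2 ≠ b1 ∧ b3 ≠ b1 ∧ b3 ≠ b2 ∧
        ψ (sec b1) = s + Pi.single t1 ε ∧ ψ (sec b2) = s + Pi.single t2 ε ∧
        ψ (sec b3) = s + Pi.single t3 ε := by
      intro b c1 c2
      rcases triple (hχ b1 b2 n21.symm) (hχ b1 b c1.symm)
        (by rw [sub_sub_sub_cancel_right]; exact hχ b2 b c2.symm) with
        e | ⟨s, ε, t1, t2, t3, hε, e1, e2, e3⟩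
      · exact Or.inl e
      · refine Or.inr ⟨ψ (sec b1) + s, ε, b1, b2, b, t1, t2, t3, hε, n21, c1, c2, ?_, ?_, ?_⟩
        · rw [add_assoc, ← e1, add_zero]
        · rw [add_assoc, ← e2]; abel
        · rw [add_assoc, ← e3]; abel
    obtain ⟨b3, n31, n32, -⟩ := exists_ne_four h5 b1 b2 b1 b1
    obtain ⟨b4, n41, n42, n43, -⟩ := exists_ne_four h5 b1 b2 b3 b1
    rcases key b3 n31 n32 with e | e
    · rcases key b4 n41 n42 with e' | e'
      · exact absurd (sub_left_injective (e.trans e'.symm)) (hinj _ _ (by rwa [hsec]))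
      · exact e'
    · exact e
  have hne : ∀ {b b' t t' : B}, b ≠ b' → ψ (sec b) = s + Pi.single t ε →
      ψ (sec b') = s + Pi.single t' ε → t ≠ t' := by
    intro b b' t t' n a1 a2 e
    exact hinj (sec b) b' (by rw [hsec]; exact n.symm) (by rw [a1, a2, e])
  have hed : ∀ {v : V} {b t : B}, b ≠ part v → ψ (sec b) = s + Pi.single t ε →
      Edge (ψ v - s - Pi.single t ε) := by
    intro v b t n a1
    have := hb v b n
    rwa [a1, ← sub_sub] at this
  have m21 := hne n21 e2 e1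
  have m31 := hne n31 e3 e1
  have m32 := hne n32 e3 e2
  have four : ∀ (v : V) (c1 c2 c3 c4 u1 u2 u3 u4 : B), c2 ≠ c1 → c3 ≠ c1 → c3 ≠ c2 → c4 ≠ c1 →
      c4 ≠ c2 → c4 ≠ c3 → c1 ≠ part v → c2 ≠ part v → c3 ≠ part v → c4 ≠ part v →
      ψ (sec c1) = s + Pi.single u1 ε → ψ (sec c2) = s + Pi.single u2 ε →
      ψ (sec c3) = s + Pi.single u3 ε → ψ (sec c4) = s + Pi.single u4 ε →
      ∃ m, ψ v = s + Pi.single m ε := by
    intro v c1 c2 c3 c4 u1 u2 u3 u4 k21 k31 k32 k41 k42 k43 p1 p2 p3 p4 f1 f2 f3 f4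
    suffices ∃ m, ψ v - s = Pi.single m ε by
      obtain ⟨m, hm⟩ := this
      exact ⟨m, by rw [← hm]; abel⟩
    by_cases a2 : (ψ v - s) u2 = 0
    · exact unit_of_zero hε a2 (hed p2 f2)
    by_cases a3 : (ψ v - s) u3 = 0
    · exact unit_of_zero hε a3 (hed p3 f3)
    refine unit_of_zero hε ?_ (hed p4 f4)
    rw [off_two (hne k21 f2 f1) (hne k31 f3 f1) (hne k32 f3 f2).symm a2 a3 (hed p1 f1)
      (hne k42 f4 f2) (hne k43 f4 f3), Pi.single_eq_of_ne (hne k41 f4 f1)]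
  obtain ⟨b4, t4, n41, n42, n43, e4⟩ : ∃ b4 t4, b4 ≠ b1 ∧ b4 ≠ b2 ∧ b4 ≠ b3 ∧
      ψ (sec b4) = s + Pi.single t4 ε := by
    have key : ∀ b, b ≠ b1 → b ≠ b2 → b ≠ b3 → (∃ m, ψ (sec b) = s + Pi.single m ε) ∨
        ψ (sec b) - s = Pi.single t1 ε + Pi.single t2 ε + Pi.single t3 ε := by
      intro b c1 c2 c3
      have g1 := hed (v := sec b) (by rw [hsec]; exact c1.symm) e1
      have g2 := hed (v := sec b) (by rw [hsec]; exact c2.symm) e2
      have g3 := hed (v := sec b) (by rw [hsec]; exact c3.symm) e3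
      have fin : (∃ m, ψ (sec b) - s = Pi.single m ε) → ∃ m, ψ (sec b) = s + Pi.single m ε :=
        fun ⟨m, hm⟩ => ⟨m, by rw [← hm]; abel⟩
      by_cases a1 : (ψ (sec b) - s) t1 = 0
      · exact Or.inl (fin (unit_of_zero hε a1 g1))
      by_cases a2 : (ψ (sec b) - s) t2 = 0
      · exact Or.inl (fin (unit_of_zero hε a2 g2))
      by_cases a3 : (ψ (sec b) - s) t3 = 0
      · exact Or.inl (fin (unit_of_zero hε a3 g3))
      right
      funext w
      by_cases w2 : w = t2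
      · rw [off_two m21.symm m32 m31.symm a1 a3 g2 (w2 ▸ m21) (w2 ▸ m32.symm), w2]
        simp [m21, m32.symm]
      by_cases w3 : w = t3
      · rw [off_two m31.symm m32.symm m21.symm a1 a2 g3 (w3 ▸ m31) (w3 ▸ m32), w3]
        simp [m31, m32]
      rw [off_two m21 m31 m32.symm a2 a3 g1 w2 w3]
      simp [w2, w3]
    obtain ⟨b4, n41, n42, n43, -⟩ := exists_ne_four h5 b1 b2 b3 b1
    obtain ⟨b5, n51, n52, n53, n54⟩ := exists_ne_four h5 b1 b2 b3 b4
    rcases key b4 n41 n42 n43 with ⟨m, e⟩ | e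
    · exact ⟨b4, m, n41, n42, n43, e⟩
    · rcases key b5 n51 n52 n53 with ⟨m, e'⟩ | e'
      · exact ⟨b5, m, n51, n52, n53, e'⟩
      · exact absurd (sub_left_injective (e.trans e'.symm)) (hinj _ _ (by rwa [hsec]))
  have hall : ∀ b, ∃ t, ψ (sec b) = s + Pi.single t ε := by
    intro b
    by_cases c1 : b1 = b
    · exact ⟨t1, c1 ▸ e1⟩
    by_cases c2 : b2 = b
    · exact ⟨t2, c2 ▸ e2⟩
    by_cases c3 : b3 = b
    · exact ⟨t3, c3 ▸ e3⟩
    by_cases c4 : b4 = b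
    · exact ⟨t4, c4 ▸ e4⟩
    exact four (sec b) b1 b2 b3 b4 t1 t2 t3 t4 n21 n31 n32 n41 n42 n43 (by rwa [hsec])
      (by rwa [hsec]) (by rwa [hsec]) (by rwa [hsec]) e1 e2 e3 e4
  choose τ hτ using hall
  have hτi : Function.Injective τ := fun b b' e => by
    by_contra n
    exact hne n (hτ b) (hτ b') e
  have hbij : Function.Bijective τ := Finite.injective_iff_bijective.1 hτi
  refine ⟨s, ε, τ, hε, hbij, fun v => ?_⟩
  obtain ⟨c1, k1, -⟩ := exists_ne_four h5 (part v) (part v) (part v) (part v)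
  obtain ⟨c2, k2, k21, -⟩ := exists_ne_four h5 (part v) c1 c1 c1
  obtain ⟨c3, k3, k31, k32, -⟩ := exists_ne_four h5 (part v) c1 c2 c1
  obtain ⟨c4, k4, k41, k42, k43⟩ := exists_ne_four h5 (part v) c1 c2 c3
  obtain ⟨m, hm⟩ := four v c1 c2 c3 c4 _ _ _ _ k21 k31 k32 k41 k42 k43 k1 k2 k3 k4
    (hτ c1) (hτ c2) (hτ c3) (hτ c4)
  obtain ⟨b, rfl⟩ := hbij.2 m
  by_cases e : b = part v
  · rw [hm, e]
  · exact absurd (hm.trans (hτ b).symm) (hinj v b e)

end Pool.Agent.P.MP_ba7db8_lc.Fix
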