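import Mathlib
import Pool.Agent.P.MP_ba7db8_lc.Fix.Star

/-!
From translation invariant two-sided constraint systems to colourings with a bounded number of
colours.
-/

namespace Pool.Agent.P.MP_ba7db8_lc.Fix

set_option maxHeartbeats 400000
set_option linter.unusedSectionVars false

variable {F : Type} [Field F] {B : Type} [DecidableEq B] [AddCommGroup B]
  {S : Type} [AddCommGroup S] [Module F S] {H : Type} [AddCommGroup H] [Module F H]

/-- Forbidden differences, in terms of the information on the first component. -/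
def Bad0 (t0 t1 : B) (z : Prop) (R1 R2 : S → S → Prop) (w : B × (B → F) × S × S) : Prop :=
  (z ∧ w.1 = 0 ∧ w.2 ≠ 0) ∨ (w.1 ≠ 0 ∧ ¬ ∃ t t', t ≠ t' ∧ w.2.1 = Ev F t t' ∧
    (t ≠ t0 → t' ≠ t0 → w.2.2.1 = 0) ∧ (t ≠ t1 → t' ≠ t1 → w.2.2.2 = 0) ∧
    (t = t0 → t' = t1 → R1 (-w.2.2.1) w.2.2.2) ∧ (t = t1 → t' = t0 → R2 w.2.2.1 (-w.2.2.2)))

/-- The connection set. -/
def Bad (t0 t1 : B) (R : H → S → S → Prop) (w : H × B × (B → F) × S × S) : Prop :=
  Bad0 t0 t1 (w.1 = 0) (R w.1) (R (-w.1)) w.2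

theorem not_bad_zero (t0 t1 : B) (R : H → S → S → Prop) :
    ¬ Bad t0 t1 R (0 : H × B × (B → F) × S × S) := by
  rintro (h | h)
  · exact h.2.2 rfl
  · exact h.1 rfl

theorem Bad.neg {t0 t1 : B} {R : H → S → S → Prop} {w : H × B × (B → F) × S × S}
    (h : Bad t0 t1 R w) : Bad t0 t1 R (-w) := by
  rcases h with ⟨h1, h2, h3⟩ | ⟨h1, h2⟩
  · exact Or.inl ⟨by simpa using h1, by simpa using h2, by simpa using h3⟩
  · refine Or.inr ⟨by simpa using h1, ?_⟩
    rintro ⟨t, t', a1, a2, a3, a4, a5, a6⟩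
    simp only [Prod.snd_neg, Prod.fst_neg, neg_neg, neg_eq_zero] at a2 a3 a4 a5 a6
    refine h2 ⟨t', t, a1.symm, ?_, fun x y => a3 y x, fun x y => a4 y x, fun x y => a6 y x,
      fun x y => a5 y x⟩
    rw [neg_eq_iff_eq_neg.1 a2, Ev, Ev]
    abel

theorem col_of_sol {t0 t1 : B} (h01 : t0 ≠ t1) {R : H → S → S → Prop} (L L' : H → S)
    (h : ∀ x y, R (y - x) (L x) (L' y)) :
    ∃ c : H × B × (B → F) × S × S → (B → F) × S × S,
      ∀ u v, Bad t0 t1 R (v - u) → c u ≠ c v := by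
  refine ⟨fun u => u.2.2 - (Pi.single u.2.1 1, if u.2.1 = t0 then L u.1 else 0,
    if u.2.1 = t1 then L' u.1 else 0), ?_⟩
  rintro ⟨x, b, a⟩ ⟨y, b', a'⟩ hb hc
  simp only at hc
  rw [sub_eq_sub_iff_sub_eq_sub, ← neg_inj, neg_sub, neg_sub] at hc
  rcases hb with ⟨h1, h2, h3⟩ | ⟨h1, h2⟩
  · simp only [Prod.fst_sub, Prod.snd_sub, sub_eq_zero] at h1 h2
    subst h1 h2
    exact h3 (by simpa using hc)
  · have hne : b ≠ b' := fun e => h1 (by simp [e])
    apply h2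
    refine ⟨b, b', hne, ?_⟩
    simp only [Prod.snd_sub, Prod.fst_sub, hc]
    refine ⟨rfl, fun c1 c2 => by simp [c1, c2], fun c1 c2 => by simp [c1, c2], ?_, ?_⟩
    · rintro rfl rfl
      simpa [h01, h01.symm] using h x y
    · rintro rfl rfl
      simpa [h01, h01.symm] using h y x

theorem sol_of_col [Fintype F] [Fintype B] [Fintype S] (h5 : 5 ≤ Fintype.card B) {t0 t1 : B}
    (h01 : t0 ≠ t1) {R : H → S → S → Prop} {C : Type} [Fintype C]
    (hC : Fintype.card C ≤ Fintype.card ((B → F) × S × S)) (c : H × B × (B → F) × S × S → C)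
    (hc : ∀ u v, Bad t0 t1 R (v - u) → c u ≠ c v) :
    ∃ L L' : H → S, ∀ x y, R (y - x) (L x) (L' y) := by
  classical
  have hsurj : ∀ v : H × B, ∃ a, c (v.1, v.2, a) = c 0 := by
    intro v
    have hinj : Function.Injective fun a => c (v.1, v.2, a) := by
      intro a a' e
      by_contra hne
      exact hc (v.1, v.2, a) (v.1, v.2, a') (Or.inl ⟨by simp, by simp, by
        simpa [sub_eq_zero] using Ne.symm hne⟩) e
    exact ((Fintype.bijective_iff_injective_and_card _).2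
      ⟨hinj, le_antisymm (Fintype.card_le_of_injective _ hinj) hC⟩).2 _
  choose φ hφ using hsurj
  have hN : ∀ v v' : H × B, v.2 ≠ v'.2 → ∃ t t', t ≠ t' ∧ (φ v').1 - (φ v).1 = Ev F t t' ∧
      (t ≠ t0 → t' ≠ t0 → (φ v').2.1 - (φ v).2.1 = 0) ∧
      (t ≠ t1 → t' ≠ t1 → (φ v').2.2 - (φ v).2.2 = 0) ∧
      (t = t0 → t' = t1 → R (v'.1 - v.1) (-((φ v').2.1 - (φ v).2.1)) ((φ v').2.2 - (φ v).2.2)) ∧
      (t = t1 → t' = t0 →
        R (-(v'.1 - v.1)) ((φ v').2.1 - (φ v).2.1) (-((φ v').2.2 - (φ v).2.2))) := by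
    intro v v' hne
    by_contra hcon
    exact hc (v.1, v.2, φ v) (v'.1, v'.2, φ v') (Or.inr ⟨sub_ne_zero.2 hne.symm, hcon⟩)
      ((hφ v).trans (hφ v').symm)
  obtain ⟨s, ε, τ, hε, hτ, hs⟩ := star h5 (V := H × B) Prod.snd (fun b => (0, b)) (fun _ => rfl)
    (fun v => (φ v).1) fun v v' hne => by
      obtain ⟨t, t', a1, a2, -⟩ := hN v v' hne
      exact ⟨t, t', a1, a2⟩
  have hd : ∀ v v' : H × B, (φ v').1 - (φ v).1 =
      Pi.single (τ v'.2) ε - Pi.single (τ v.2) ε := fun v v' => by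
    rw [hs v, hs v']; abel
  have hout : ∀ (v v' : H × B) (t t' w : B), t ≠ t' → (φ v').1 - (φ v).1 = Ev F t t' →
      w ≠ τ v.2 → w ≠ τ v'.2 → t ≠ w ∧ t' ≠ w := by
    intro v v' t t' w a1 a2 c1 c2
    have := congrFun a2 w
    rw [hd, Pi.sub_apply, Pi.single_eq_of_ne c1, Pi.single_eq_of_ne c2, sub_zero] at this
    constructor
    · rintro rfl
      rw [Ev_left a1] at this
      exact neg_ne_zero.2 one_ne_zero this.symm
    · rintro rfl
      rw [Ev_right a1] at this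
      exact one_ne_zero this.symm
  obtain ⟨b0, e0⟩ := hτ.2 t0
  obtain ⟨b1, e1⟩ := hτ.2 t1
  obtain ⟨b2, n0, n1, -⟩ := exists_ne_four h5 b0 b1 b0 b0
  have n01 : b0 ≠ b1 := fun e => h01 (by rw [← e0, ← e1, e])
  have m0 : t0 ≠ τ b2 := fun e => n0 (hτ.1 (by rw [e0, e]))
  have m1 : t1 ≠ τ b2 := fun e => n1 (hτ.1 (by rw [e1, e]))
  have k0 : ∀ y, (φ (y, b1)).2.1 = (φ (0, b2)).2.1 := by
    intro y
    obtain ⟨t, t', a1, a2, a3, -⟩ := hN (0, b2) (y, b1) n1
    obtain ⟨c1, c2⟩ := hout _ _ t t' t0 a1 a2 m0 (by rw [e1]; exact h01)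
    exact sub_eq_zero.1 (a3 c1 c2)
  have k1 : ∀ x, (φ (x, b0)).2.2 = (φ (0, b2)).2.2 := by
    intro x
    obtain ⟨t, t', a1, a2, -, a4, -⟩ := hN (0, b2) (x, b0) n0
    obtain ⟨c1, c2⟩ := hout _ _ t t' t1 a1 a2 m1 (by rw [e0]; exact h01.symm)
    exact sub_eq_zero.1 (a4 c1 c2)
  have key : ∀ x y, ε * ε = 1 ∧ R (ε • (y - x)) (ε • ((φ (x, b0)).2.1 - (φ (0, b2)).2.1))
      (ε • ((φ (y, b1)).2.2 - (φ (0, b2)).2.2)) := by
    intro x y
    obtain ⟨t, t', a1, a2, -, -, a5, a6⟩ := hN (x, b0) (y, b1) n01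
    rw [k0, k1] at a5 a6
    rw [hd] at a2
    have c0 := congrFun a2 t0
    have c1 := congrFun a2 t1
    simp only [e0, e1, Pi.sub_apply, Pi.single_eq_same, Pi.single_eq_of_ne h01,
      Pi.single_eq_of_ne h01.symm, sub_zero, zero_sub] at c0 c1
    have d0 : t0 = t ∨ t0 = t' := by
      by_contra hcon
      push Not at hcon
      rw [Ev_other hcon.1 hcon.2, neg_eq_zero] at c0
      exact hε c0
    have d1 : t1 = t ∨ t1 = t' := by
      by_contra hcon
      push Not at hcon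
      rw [Ev_other hcon.1 hcon.2] at c1
      exact hε c1
    rcases d0 with rfl | rfl <;> rcases d1 with rfl | rfl
    · exact absurd rfl h01
    · rw [Ev_right a1] at c1
      simpa [c1] using a5 rfl rfl
    · rw [Ev_left a1] at c1
      simpa [c1] using a6 rfl rfl
    · exact absurd rfl h01
  refine ⟨fun x => ε • ((φ (ε • x, b0)).2.1 - (φ (0, b2)).2.1),
    fun y => ε • ((φ (ε • y, b1)).2.2 - (φ (0, b2)).2.2), fun x y => ?_⟩
  have := (key (ε • x) (ε • y)).2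
  rwa [← smul_sub, smul_smul, (key 0 0).1, one_smul] at this

end Pool.Agent.P.MP_ba7db8_lc.Fix
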