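import Mathlib

/-!
Translation invariant binary rules with a bounded alphabet that force a marker.
-/

namespace Pool.Agent.P.MP_ba7db8_lc.Fix

set_option maxHeartbeats 400000

variable {D : Type} [AddCommGroup D]

/-- All entries from `r` on vanish. -/
def Supp {D : Type} [Zero D] (r : ℕ) (g : ℕ → D) : Prop := ∀ j, r ≤ j → g j = 0

/-- `i` is the position of the leading digit. -/
def Lead (g : ℕ → D) (i : ℕ) : Prop := g i ≠ 0 ∧ ∀ j, i < j → g j = 0

/-- The rules between two labels (top digit, leading digit, next digit). -/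
def RT (r : ℕ) (δ : ℕ → D) (s t : D × D × D) : Prop :=
  t.1 = s.1 + δ (r - 1) ∧ (s.1 ≠ 0 → s.2.1 = s.1) ∧ ((∀ j, δ j = 0) → s.2 = t.2) ∧
  (∀ i, Lead δ (i + 1) →
    (s.2.1 ≠ 0 → t.2.1 ≠ 0 → t.2.1 = s.2.1 + δ (i + 1) → t.2.2 = s.2.2 + δ i) ∧
    (t.2.1 = δ (i + 1) → s.2.1 ≠ δ (i + 1) → s.2.1 ≠ -δ (i + 1) → t.2.2 ≠ δ i →
      s.2.1 = t.2.2 - δ i)) ∧
  (Lead δ 0 → t.2.1 = δ 0 → s.2.1 ≠ δ 0 → s.2.1 ≠ -δ 0 → s.2.1 = 0)

theorem exists_ne_three {B : Type} [Fintype B] (h4 : 4 ≤ Fintype.card B) (a b c : B) :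
    ∃ d, d ≠ a ∧ d ≠ b ∧ d ≠ c := by
  classical
  by_contra hcon
  push Not at hcon
  have : (Finset.univ : Finset B) ⊆ {a, b, c} := by
    intro d _
    simp only [Finset.mem_insert, Finset.mem_singleton]
    by_contra h
    push Not at h
    exact h.2.2 (hcon d h.1 h.2.1)
  have h1 := Finset.card_le_card this
  have h2 : ({a, b, c} : Finset B).card ≤ 3 := Finset.card_le_three
  rw [Finset.card_univ] at h1
  omega

theorem Supp.update {r i : ℕ} {g : ℕ → D} (h : Supp r g) (hi : i < r) (a : D) :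
    Supp r (Function.update g i a) := fun j hj => by
  rw [Function.update_of_ne (by omega)]
  exact h j hj

theorem marker_sound [Fintype D] (h4 : 4 ≤ Fintype.card D) {r : ℕ} (hr : 0 < r)
    (f f' : (ℕ → D) → D × D × D)
    (h : ∀ g g', Supp r g → Supp r g' → RT r (g' - g) (f g) (f' g')) :
    ∃ y, Supp r y ∧ (f y).2.1 = 0 ∧ (f' y).2.1 = 0 := by
  classical
  have hE : ∀ g, Supp r g → (f g).2 = (f' g).2 := fun g hg =>
    (h g g hg hg).2.2.1 fun j => by simp
  have h0 : Supp r (0 : ℕ → D) := fun _ _ => rfl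
  have key : ∀ k i, i + k + 1 = r → ∃ μ, Supp r μ ∧ ∀ g, Supp r g → (∀ j, i < j → g j = μ j) →
      g i ≠ μ i → (f g).2.1 = g i - μ i := by
    intro k
    induction k with
    | zero =>
      intro i hi
      refine ⟨Function.update 0 i (-(f 0).1), h0.update (by omega) _, fun g hg _ hne => ?_⟩
      have e1 := (h 0 g h0 hg).1
      have e2 := (h g g hg hg).1
      have e3 := (h g g hg hg).2.1
      have hi' : r - 1 = i := by omega
      simp only [hi', Pi.sub_apply, sub_self, add_zero, Pi.zero_apply, sub_zero,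
        Function.update_self] at e1 e2 hne ⊢
      have e4 : (f g).1 = g i - -(f 0).1 := by rw [← e2, e1]; abel
      rw [e3 (by rw [e4]; exact sub_ne_zero.2 hne), e4]
    | succ k ih =>
      intro i hi
      obtain ⟨μ, hμ, hP⟩ := ih (i + 1) (by omega)
      have hcons : ∀ g g', Supp r g → Supp r g' → (∀ j, i + 1 < j → g j = μ j) →
          (∀ j, i + 1 < j → g' j = μ j) → g (i + 1) ≠ μ (i + 1) → g' (i + 1) ≠ μ (i + 1) →
          g' (i + 1) ≠ g (i + 1) → g' i - (f g').2.2 = g i - (f g).2.2 := by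
        intro g g' hg hg' a1 a2 a3 a4 a5
        have b1 := hP g hg a1 a3
        have b2 := hP g' hg' a2 a4
        have b3 := ((h g g' hg hg').2.2.2.1 i ⟨sub_ne_zero.2 a5, fun j hj => by
          rw [Pi.sub_apply, a1 j hj, a2 j hj, sub_self]⟩).1
        rw [← hE g' hg', b1, b2] at b3
        rw [b3 (sub_ne_zero.2 a3) (sub_ne_zero.2 a4) (by rw [Pi.sub_apply]; abel), Pi.sub_apply]
        abel
      have hup : ∀ (g : ℕ → D) (a : D) (j : ℕ), i + 1 < j →
          Function.update g (i + 1) a j = g j := fun g a j hj =>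
        Function.update_of_ne (by omega) _ _
      obtain ⟨a0, ha0, -, -⟩ := exists_ne_three h4 (μ (i + 1)) (μ (i + 1)) (μ (i + 1))
      set g0 := Function.update μ (i + 1) a0 with hg0
      set ν := g0 i - (f g0).2.2 with hν
      have hall : ∀ g, Supp r g → (∀ j, i + 1 < j → g j = μ j) → g (i + 1) ≠ μ (i + 1) →
          g i - (f g).2.2 = ν := by
        intro g hg a1 a3
        obtain ⟨a, c1, c2, c3⟩ := exists_ne_three h4 (μ (i + 1)) (g (i + 1)) a0
        have s1 : Supp r (Function.update μ (i + 1) a) := hμ.update (by omega) _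
        rw [hν, ← hcons g _ hg s1 a1 (hup μ a) a3 (by simpa using c1) (by simpa using c2),
          hcons g0 _ (hμ.update (by omega) _) s1 (hup μ a0) (hup μ a) (by simpa [hg0] using ha0)
            (by simpa using c1) (by simpa [hg0] using c3)]
      refine ⟨Function.update μ i ν, hμ.update (by omega) _, fun y hy a1 a2 => ?_⟩
      rw [Function.update_self] at a2 ⊢
      have a3 : ∀ j, i < j → y j = μ j := fun j hj => by
        rw [a1 j hj, Function.update_of_ne (by omega)]
      obtain ⟨α, c1, c2, c3⟩ := exists_ne_three h4 0 (f y).2.1 (-(f y).2.1)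
      set w := Function.update y (i + 1) (μ (i + 1) + α) with hw
      have w1 : Supp r w := hy.update (by omega) _
      have w2 : ∀ j, i + 1 < j → w j = μ j := fun j hj => by
        rw [hw, hup _ _ j hj, a3 j (by omega)]
      have w3 : w (i + 1) = μ (i + 1) + α := by simp [hw]
      have w4 : w i = y i := Function.update_of_ne (by omega) _ _
      have w5 : w (i + 1) ≠ μ (i + 1) := by rw [w3]; simpa using c1
      have w6 : (w - y) (i + 1) = α := by rw [Pi.sub_apply, w3, a3 _ (by omega)]; abel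
      have w7 : (w - y) i = 0 := by rw [Pi.sub_apply, w4, sub_self]
      have w8 : (f w).2.2 = y i - ν := by rw [← hall w w1 w2 w5, w4]; abel
      have b3 := ((h y w hy w1).2.2.2.1 i ⟨by rw [w6]; exact c1, fun j hj => by
        rw [Pi.sub_apply, w2 j hj, a3 j (by omega), sub_self]⟩).2
      rw [← hE w w1, w6, w7, w8, hP w w1 w2 w5, w3] at b3
      rw [b3 (by abel) c2.symm (fun e => c3 (by rw [e, neg_neg])) (sub_ne_zero.2 a2), sub_zero]
  obtain ⟨μ, hμ, hP⟩ := key (r - 1) 0 (by omega)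
  obtain ⟨α, c1, c2, c3⟩ := exists_ne_three h4 0 (f μ).2.1 (-(f μ).2.1)
  set w := Function.update μ 0 (μ 0 + α) with hw
  have w1 : Supp r w := hμ.update hr _
  have w2 : ∀ j, 0 < j → w j = μ j := fun j hj => Function.update_of_ne (by omega) _ _
  have w3 : w 0 = μ 0 + α := by simp [hw]
  have w6 : (w - μ) 0 = α := by rw [Pi.sub_apply, w3]; abel
  have b3 := (h μ w hμ w1).2.2.2.2 ⟨by rw [w6]; exact c1, fun j hj => by
    rw [Pi.sub_apply, w2 j hj, sub_self]⟩
  rw [← hE w w1, w6, hP w w1 w2 (by rw [w3]; simpa using c1), w3] at b3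
  have := b3 (by abel) c2.symm (fun e => c3 (by rw [e, neg_neg]))
  exact ⟨μ, hμ, this, by rw [← hE μ hμ, this]⟩

theorem Lead.unique {g : ℕ → D} {i j : ℕ} (hi : Lead g i) (hj : Lead g j) : i = j := by
  rcases lt_trichotomy i j with h | h | h
  · exact absurd (hi.2 j h) hj.1
  · exact h
  · exact absurd (hj.2 i h) hi.1

theorem exists_lead {r : ℕ} {g : ℕ → D} (hg : Supp r g) {j : ℕ} (hj : g j ≠ 0) :
    ∃ i, j ≤ i ∧ Lead g i := by
  classical
  have hjr : j ≤ r := by
    by_contra hcon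
    exact hj (hg j (by omega))
  refine ⟨Nat.findGreatest (fun i => g i ≠ 0) r, Nat.le_findGreatest hjr hj,
    Nat.findGreatest_spec (P := fun i => g i ≠ 0) hjr hj, fun k hk => ?_⟩
  by_cases hkr : k ≤ r
  · by_contra hcon
    exact Nat.findGreatest_is_greatest hk hkr hcon
  · exact hg k (by omega)

theorem marker_complete (r : ℕ) : ∃ f : (ℕ → D) → D × D × D,
    (∀ g g', Supp r g → Supp r g' → RT r (g' - g) (f g) (f g')) ∧
    ∀ g, Supp r g → (f g).2.1 = 0 → g = 0 := by
  classical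
  obtain ⟨a, b, hab, hz⟩ : ∃ a b : (ℕ → D) → D,
      (∀ g i, Lead g i → a g = g i ∧ b g = g (i - 1)) ∧ a 0 = 0 := by
    refine ⟨fun g => if h : ∃ i, Lead g i then g h.choose else 0,
      fun g => if h : ∃ i, Lead g i then g (h.choose - 1) else 0, fun g i hi => ?_, ?_⟩
    · have h : ∃ i, Lead g i := ⟨i, hi⟩
      simp only [dif_pos h, h.choose_spec.unique hi, and_self]
    · simp
  have hcase : ∀ g g' i, Supp r g → Lead (g' - g) i →
      a g' = a g ∨ ((∀ j, i < j → g j = 0) ∧ ∀ j, i < j → g' j = 0) := by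
    intro g g' i hg hl
    have e : ∀ j, i < j → g' j = g j := fun j hj => sub_eq_zero.1 (hl.2 j hj)
    by_cases hc : ∀ j, i < j → g j = 0
    · exact Or.inr ⟨hc, fun j hj => by rw [e j hj, hc j hj]⟩
    · push Not at hc
      obtain ⟨j, hj, hne⟩ := hc
      obtain ⟨k, hk, hlk⟩ := exists_lead hg hne
      have hl' : Lead g' k := ⟨by rw [e k (by omega)]; exact hlk.1, fun m hm => by
        rw [e m (by omega), hlk.2 m hm]⟩
      exact Or.inl (by rw [(hab g k hlk).1, (hab g' k hl').1, e k (by omega)])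
  have hlow : ∀ g g' i, Supp r g → Lead (g' - g) i → a g' = (g' - g) i → a g ≠ (g' - g) i →
      a g ≠ -(g' - g) i → (∀ j, i ≤ j → g j = 0) ∧ Lead g' i := by
    intro g g' i hg hl c1 c2 c3
    rcases hcase g g' i hg hl with h | ⟨h1, h2⟩
    · exact absurd (h.symm.trans c1) c2
    · have h3 : g i = 0 := by
        by_contra hne
        have e1 := (hab g i ⟨hne, h1⟩).1
        by_cases h4 : g' i = 0
        · exact c3 (by rw [e1, Pi.sub_apply, h4]; abel)
        · rw [(hab g' i ⟨h4, h2⟩).1, Pi.sub_apply] at c1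
          exact hne (sub_eq_self.1 c1.symm)
      refine ⟨fun j hj => ?_, ?_, h2⟩
      · rcases hj.eq_or_lt with rfl | h
        · exact h3
        · exact h1 j h
      · have := hl.1
        rwa [Pi.sub_apply, h3, sub_zero] at this
  refine ⟨fun g => (g (r - 1), a g, b g), fun g g' hg hg' => ⟨?_, ?_, ?_, ?_, ?_⟩, ?_⟩
  · simp
  · exact fun hne => (hab g (r - 1) ⟨hne, fun j hj => hg j (by omega)⟩).1
  · intro hδ
    have : g' = g := funext fun j => sub_eq_zero.1 (hδ j)
    rw [this]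
  · intro i hl
    refine ⟨fun c1 c2 c3 => ?_, fun c1 c2 c3 c4 => ?_⟩
    · simp only at c1 c2 c3 ⊢
      rcases hcase g g' _ hg hl with h | ⟨h1, h2⟩
      · rw [h] at c3
        exact absurd (left_eq_add.1 c3) hl.1
      · have n1 : g (i + 1) ≠ 0 := by
          intro e
          have e2 : g' (i + 1) ≠ 0 := by
            have := hl.1
            rwa [Pi.sub_apply, e, sub_zero] at this
          rw [(hab g' _ ⟨e2, h2⟩).1, Pi.sub_apply, e] at c3
          rw [sub_zero] at c3
          exact c1 (right_eq_add.1 c3)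
        have n2 : g' (i + 1) ≠ 0 := by
          intro e
          rw [(hab g _ ⟨n1, h1⟩).1, Pi.sub_apply, e] at c3
          exact c2 (by rw [c3]; abel)
        rw [(hab g _ ⟨n1, h1⟩).2, (hab g' _ ⟨n2, h2⟩).2]
        simp
    · simp only at c1 c2 c3 c4 ⊢
      obtain ⟨h1, h2⟩ := hlow g g' _ hg hl c1 c2 c3
      rw [(hab g' _ h2).2, Nat.add_sub_cancel, Pi.sub_apply] at c4 ⊢
      have n1 : g i ≠ 0 := fun e => c4 (by rw [e, sub_zero])
      rw [(hab g i ⟨n1, fun j hj => h1 j hj⟩).1]
      abel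
  · intro hl c1 c2 c3
    obtain ⟨h1, -⟩ := hlow g g' _ hg hl c1 c2 c3
    have : g = 0 := funext fun j => h1 j (Nat.zero_le _)
    rw [this]
    exact hz
  · intro g hg ha
    by_contra hne
    obtain ⟨j, hj⟩ := Function.ne_iff.1 hne
    obtain ⟨i, -, hi⟩ := exists_lead hg hj
    exact hi.1 ((hab g i hi).1.symm.trans ha)

end Pool.Agent.P.MP_ba7db8_lc.Fix
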