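import Mathlib
import Pool.Agent.P.MP_ba7db8_lc.CSP
import Pool.Agent.P.MP_ba7db8_lc.Fix.Marker

/-!
A translation invariant constraint system with a bounded alphabet that encodes a clique problem.
-/

namespace Pool.Agent.P.MP_ba7db8_lc.Fix

open Finset

set_option maxHeartbeats 400000

/-- Pairs of coordinates. -/
def pr {F : Type} (δ : ℕ → F) (j : ℕ) : F × F := (δ (2 * j), δ (2 * j + 1))

/-- Inverse of `pr`. -/
def unpr {F : Type} (g : ℕ → F × F) (i : ℕ) : F := if i % 2 = 0 then (g (i / 2)).1 else (g (i / 2)).2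

/-- Extension by zero. -/
def ext {F : Type} [Zero F] {N : ℕ} (h : Fin N → F) (i : ℕ) : F := if hi : i < N then h ⟨i, hi⟩ else 0

/-- The number with the digits `δ o, …, δ (o + m - 1)`. -/
def num {p : ℕ} (m o : ℕ) (δ : ℕ → ZMod p) : ℕ := ∑ i ∈ range m, (δ (o + i)).val * p ^ i

/-- The labels. -/
abbrev Lab (F : Type) : Type := ((F × F) × (F × F) × F × F) × F × F × F

/-- The constraints. -/
def Rel {p : ℕ} (m : ℕ) (P : ℕ → ZMod p × ZMod p → ℕ → ZMod p × ZMod p → Prop) (δ : ℕ → ZMod p)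
    (σ σ' : Lab (ZMod p)) : Prop :=
  RT m (pr δ) σ.1 σ'.1 ∧ (σ.1.2.1 = 0 → (∀ i < m, δ i = 0) → σ'.2.1 = 1) ∧
    (σ'.1.2.1 = 0 → (∀ i < m, δ (m + i) = 0) → σ.2.1 = 1) ∧
    (σ.2.1 = 1 → σ'.2.1 = 1 → P (num m 0 (-δ)) σ.2.2 (num m m δ) σ'.2.2)

theorem pr_unpr {F : Type} (g : ℕ → F × F) : pr (unpr g) = g := by
  funext j
  have e1 : 2 * j % 2 = 0 := by omega
  have e2 : 2 * j / 2 = j := by omega
  have e3 : (2 * j + 1) % 2 = 1 := by omega
  have e4 : (2 * j + 1) / 2 = j := by omega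
  simp [pr, unpr, e1, e2, e3, e4]

theorem unpr_pr {F : Type} (δ : ℕ → F) : unpr (pr δ) = δ := by
  funext i
  unfold unpr pr
  split_ifs with h <;> simp only <;> congr 1 <;> omega

theorem ext_sub {F : Type} [AddCommGroup F] {N : ℕ} (x y : Fin N → F) :
    ext (y - x) = ext y - ext x := by
  funext i
  by_cases h : i < N <;> simp [ext, h]

theorem ext_neg {F : Type} [AddCommGroup F] {N : ℕ} (x : Fin N → F) : ext (-x) = -ext x := by
  funext i
  by_cases h : i < N <;> simp [ext, h]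

theorem supp_ext {F : Type} [Zero F] {N : ℕ} (x : Fin N → F) : Supp N (ext x) := fun j hj => by
  simp [ext, not_lt.2 hj]

theorem ext_res {F : Type} [Zero F] {N : ℕ} (g : ℕ → F) {i : ℕ} (hi : i < N) :
    ext (fun j : Fin N => g j) i = g i := by simp [ext, hi]

theorem ext_res' {F : Type} [Zero F] {N : ℕ} {g : ℕ → F} (hg : Supp N g) :
    ext (fun j : Fin N => g j) = g := by
  funext i
  by_cases h : i < N
  · exact ext_res g h
  · rw [supp_ext _ i (not_lt.1 h), hg i (not_lt.1 h)]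

theorem ext_eq_zero {F : Type} [Zero F] {N : ℕ} {x : Fin N → F} :
    x = 0 ↔ ∀ i < N, ext x i = 0 := by
  refine ⟨fun h i hi => by simp [h, ext], fun h => funext fun i => ?_⟩
  simpa [ext] using h i i.2

theorem num_congr {p m o o' : ℕ} {δ δ' : ℕ → ZMod p} (h : ∀ i < m, δ (o + i) = δ' (o' + i)) :
    num m o δ = num m o' δ' :=
  sum_congr rfl fun i hi => by rw [h i (mem_range.1 hi)]

theorem num_lt {p : ℕ} [Fact p.Prime] (m o : ℕ) (δ : ℕ → ZMod p) : num m o δ < p ^ m := by
  induction m with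
  | zero => simp [num]
  | succ m ih =>
    unfold num at ih ⊢
    rw [sum_range_succ, pow_succ]
    have h1 : (δ (o + m)).val + 1 ≤ p := ZMod.val_lt _
    nlinarith [Nat.mul_le_mul_right (p ^ m) h1]

theorem num_dig {p : ℕ} [Fact p.Prime] {m o n : ℕ} {δ : ℕ → ZMod p}
    (h : ∀ i < m, δ (o + i) = (dig p n i : ℕ)) (hn : n < p ^ m) : num m o δ = n := by
  have hp : 0 < p := (Fact.out : p.Prime).pos
  have key : ∀ k, ∑ i ∈ range k, dig p n i * p ^ i = n % p ^ k := by
    intro k
    induction k with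
    | zero => simp [Nat.mod_one]
    | succ k ih => rw [sum_range_succ, ih, Nat.mod_pow_succ, dig, mul_comm]
  rw [← Nat.mod_eq_of_lt hn, ← key]
  refine sum_congr rfl fun i hi => ?_
  rw [h i (mem_range.1 hi), ZMod.val_natCast, dig, Nat.mod_mod]

theorem csp_iff {p : ℕ} [Fact p.Prime] {m : ℕ} (hm : 0 < m)
    (P : ℕ → ZMod p × ZMod p → ℕ → ZMod p × ZMod p → Prop) :
    (∃ L L' : (Fin (2 * m) → ZMod p) → Lab (ZMod p),
      ∀ x y, Rel m P (ext (y - x)) (L x) (L' y)) ↔
    ∃ l l' : ℕ → ZMod p × ZMod p, ∀ n < p ^ m, ∀ n' < p ^ m, P n (l n) n' (l' n') := by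
  classical
  have hp : 2 ≤ p := (Fact.out : p.Prime).two_le
  constructor
  · rintro ⟨L, L', h⟩
    have hs : ∀ g : ℕ → ZMod p × ZMod p, Supp m g → Supp (2 * m) (unpr g) := fun g hg j hj => by
      simp [unpr, hg (j / 2) (by omega)]
    obtain ⟨y, -, hy1, hy2⟩ := marker_sound (D := ZMod p × ZMod p) (by
      rw [Fintype.card_prod, ZMod.card]; nlinarith) hm (fun g => (L fun j => unpr g j).1)
      (fun g => (L' fun j => unpr g j).1) fun g g' hg hg' => by
        have := (h (fun j => unpr g j) fun j => unpr g' j).1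
        rw [ext_sub, ext_res' (hs g hg), ext_res' (hs g' hg')] at this
        convert this using 1
        conv_lhs => rw [← pr_unpr g, ← pr_unpr g']
        rfl
    set Y : Fin (2 * m) → ZMod p := fun j => unpr y j
    let row : ℕ → Fin (2 * m) → ZMod p := fun n j =>
      if (j : ℕ) < m then ((dig p n j : ℕ) : ZMod p) else 0
    let col : ℕ → Fin (2 * m) → ZMod p := fun n j =>
      if (j : ℕ) < m then 0 else ((dig p n (j - m) : ℕ) : ZMod p)
    have r1 : ∀ n, ∀ i < m, ext (row n) i = (dig p n i : ℕ) := fun n i hi => by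
      simp [ext, row, hi, show i < 2 * m by omega]
    have r2 : ∀ n, ∀ i < m, ext (row n) (m + i) = 0 := fun n i hi => by
      simp [ext, row]
    have c1 : ∀ n, ∀ i < m, ext (col n) i = 0 := fun n i hi => by
      simp [ext, col, hi]
    have c2 : ∀ n, ∀ i < m, ext (col n) (m + i) = (dig p n i : ℕ) := fun n i hi => by
      simp [ext, col, show m + i < 2 * m by omega]
    refine ⟨fun n => (L (Y + row n)).2.2, fun n => (L' (Y + col n)).2.2, fun n hn n' hn' => ?_⟩
    have f1 := (h (Y + row n) Y).2.2.1 hy2 fun i hi => by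
      rw [sub_add_cancel_left, ext_neg, Pi.neg_apply, r2 n i hi, neg_zero]
    have f2 := (h Y (Y + col n')).2.1 hy1 fun i hi => by
      rw [add_sub_cancel_left, c1 n' i hi]
    have f3 := (h (Y + row n) (Y + col n')).2.2.2 f1 f2
    rwa [add_sub_add_left_eq_sub, ext_sub, num_dig (n := n) (fun i hi => by
      simp [r1 n i hi, c1 n' i hi]) hn, num_dig (n := n') (fun i hi => by
      simp [r2 n i hi, c2 n' i hi]) hn'] at f3
  · rintro ⟨l, l', h⟩
    obtain ⟨f, hf1, hf2⟩ := marker_complete (D := ZMod p × ZMod p) m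
    have hs : ∀ x : Fin (2 * m) → ZMod p, Supp m (pr (ext x)) := fun x j hj => by
      rw [pr, supp_ext x _ (by omega), supp_ext x _ (by omega)]
      rfl
    have hz : ∀ x : Fin (2 * m) → ZMod p, (f (pr (ext x))).2.1 = 0 → ∀ i, ext x i = 0 := by
      intro x hx i
      rw [← unpr_pr (ext x), hf2 _ (hs x) hx]
      simp [unpr]
    refine ⟨fun x => (f (pr (ext x)), if ∀ i < m, ext x (m + i) = 0 then 1 else 0,
      l (num m 0 (ext x))), fun y => (f (pr (ext y)), if ∀ i < m, ext y i = 0 then 1 else 0,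
      l' (num m m (ext y))), fun x y => ?_⟩
    rw [ext_sub]
    refine ⟨hf1 _ _ (hs x) (hs y), fun a1 a2 => if_pos fun i hi => ?_,
      fun a1 a2 => if_pos fun i hi => ?_, fun a1 a2 => ?_⟩
    · simpa [hz x a1 i] using a2 i hi
    · simpa [hz y a1 (m + i)] using a2 i hi
    · have b1 : ∀ i < m, ext x (m + i) = 0 := by
        by_contra hcon
        exact zero_ne_one ((if_neg hcon).symm.trans a1)
      have b2 : ∀ i < m, ext y i = 0 := by
        by_contra hcon
        exact zero_ne_one ((if_neg hcon).symm.trans a2)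
      rw [num_congr (δ := -(ext y - ext x)) (δ' := ext x) (o' := 0) fun i hi => by simp [b2 i hi],
        num_congr (δ := ext y - ext x) (δ' := ext y) (o' := m) fun i hi => by simp [b1 i hi]]
      exact h _ (num_lt _ _ _) _ (num_lt _ _ _)

/-- Choosing one vertex in every block, with two bits for each vertex. -/
def Src {F : Type} [Zero F] (Γ : SimpleGraph ℕ) (nv D n : ℕ) (v : F × F) (n' : ℕ) (v' : F × F) :
    Prop :=
  (n = n' → v = v') ∧ (v.1 ≠ 0 → v'.1 ≠ 0 → n ≠ n' → Γ.Adj n n') ∧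
    (n = n' + 1 → v.2 ≠ 0 → v.1 ≠ 0 ∨ v'.2 ≠ 0) ∧ (n % D = 0 → v.2 ≠ 0 → v.1 ≠ 0) ∧
    (n < nv → (n + 1) % D = 0 → v.2 ≠ 0)

theorem src_iff {F : Type} [Field F] {Γ : SimpleGraph ℕ} {k D N : ℕ} (hD : 0 < D) (hk : 2 ≤ k)
    (hΓ : ∀ s t, Γ.Adj s t → s / D ≠ t / D ∧ s / D < k) (hN : k * D ≤ N) :
    (∃ l l' : ℕ → F × F, ∀ n < N, ∀ n' < N, Src Γ (k * D) D n (l n) n' (l' n')) ↔
      ∃ K, Γ.IsNClique k K := by
  classical
  constructor
  · rintro ⟨l, l', h⟩
    have he : ∀ n < N, l' n = l n := fun n hn => ((h n hn n hn).1 rfl).symm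
    have hlt : ∀ π < k, ∀ j < D, π * D + j < k * D := fun π hπ j hj => by
      nlinarith [Nat.mul_le_mul_right D (Nat.succ_le_of_lt hπ)]
    have key : ∀ π < k, ∀ j < D, (l (π * D + j)).2 ≠ 0 → ∃ i < D, (l (π * D + i)).1 ≠ 0 := by
      intro π hπ j
      induction j with
      | zero =>
        intro hj h2
        have a := (hlt π hπ 0 hj).trans_le hN
        exact ⟨0, hj, (h _ a _ a).2.2.2.1 (by simp) h2⟩
      | succ j ih =>
        intro hj h2
        have a := (hlt π hπ _ hj).trans_le hN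
        have b := (hlt π hπ j (by omega)).trans_le hN
        rcases (h _ a _ b).2.2.1 rfl h2 with c | c
        · exact ⟨_, hj, c⟩
        · exact ih (by omega) (by rwa [he _ b] at c)
    have hex : ∀ π, ∃ i, π < k → i < D ∧ (l (π * D + i)).1 ≠ 0 := by
      intro π
      by_cases hπ : π < k
      · have a := hlt π hπ (D - 1) (by omega)
        obtain ⟨i, hi⟩ := key π hπ (D - 1) (by omega) ((h _ (a.trans_le hN) _
          (a.trans_le hN)).2.2.2.2 a (by
            rw [show π * D + (D - 1) + 1 = (π + 1) * D by rw [add_mul]; omega, Nat.mul_mod_left]))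
        exact ⟨i, fun _ => hi⟩
      · exact ⟨0, fun h => absurd h hπ⟩
    choose c hc using hex
    have e1 : ∀ π < k, (π * D + c π) / D = π := fun π hπ => by
      rw [mul_comm, Nat.mul_add_div hD, Nat.div_eq_of_lt (hc π hπ).1, add_zero]
    refine ⟨(range k).image fun π => π * D + c π, ?_, ?_⟩
    · intro s hs t ht hne
      obtain ⟨π, hπ, rfl⟩ := mem_image.1 (Finset.mem_coe.1 hs)
      obtain ⟨π', hπ', rfl⟩ := mem_image.1 (Finset.mem_coe.1 ht)
      rw [mem_range] at hπ hπ'
      have b := (hlt π' hπ' _ (hc π' hπ').1).trans_le hN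
      exact (h _ ((hlt π hπ _ (hc π hπ).1).trans_le hN) _ b).2.1 (hc π hπ).2
        (by rw [he _ b]; exact (hc π' hπ').2) hne
    · rw [card_image_of_injOn, card_range]
      intro π hπ π' hπ' e
      have := congrArg (· / D) e
      simpa only [e1 π (mem_range.1 hπ), e1 π' (mem_range.1 hπ')] using this
  · rintro ⟨K, hK⟩
    have hsurj : ∀ π < k, ∃ s ∈ K, s / D = π := by
      have hinj : Set.InjOn (fun s => s / D) K := by
        intro s hs t ht e
        by_contra hne
        exact (hΓ _ _ (hK.isClique hs ht hne)).1 e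
      have hsub : K.image (fun s => s / D) ⊆ range k := by
        intro π hπ
        obtain ⟨s, hs, rfl⟩ := mem_image.1 hπ
        obtain ⟨t, ht, hne⟩ := Finset.exists_mem_ne (by rw [hK.card_eq]; omega) s
        exact mem_range.2 (hΓ _ _ (hK.isClique hs ht hne.symm)).2
      have heq := Finset.eq_of_subset_of_card_le hsub
        (by rw [card_image_of_injOn hinj, hK.card_eq, card_range])
      intro π hπ
      have : π ∈ K.image (fun s => s / D) := heq ▸ mem_range.2 hπ
      exact mem_image.1 this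
    let l : ℕ → F × F := fun n =>
      (if n ∈ K then 1 else 0, if ∃ s ∈ K, s ≤ n ∧ s / D = n / D then 1 else 0)
    have l1 : ∀ n, (l n).1 ≠ 0 ↔ n ∈ K := fun n => by simp [l]
    have l2 : ∀ n, (l n).2 ≠ 0 ↔ ∃ s ∈ K, s ≤ n ∧ s / D = n / D := fun n => by simp [l]
    refine ⟨l, l, fun n _ n' _ => ⟨fun e => by rw [e], fun a b c => ?_, ?_, ?_, ?_⟩⟩
    · exact hK.isClique ((l1 n).1 a) ((l1 n').1 b) c
    · rintro rfl a
      obtain ⟨s, hs, b, c⟩ := (l2 _).1 a
      rcases b.eq_or_lt with rfl | b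
      · exact Or.inl ((l1 _).2 hs)
      · refine Or.inr ((l2 _).2 ⟨s, hs, by omega, le_antisymm (Nat.div_le_div_right (by omega)) ?_⟩)
        rw [c]
        exact Nat.div_le_div_right (by omega)
    · intro a b
      obtain ⟨s, hs, b, c⟩ := (l2 _).1 b
      have e1 := Nat.div_add_mod n D
      have e2 := Nat.div_add_mod s D
      rw [c] at e2
      rw [l1, show n = s by omega]
      exact hs
    · intro a b
      obtain ⟨s, hs, c⟩ := hsurj (n / D) ((Nat.div_lt_iff_lt_mul hD).2 a)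
      refine (l2 _).2 ⟨s, hs, ?_, c⟩
      by_contra hcon
      have e1 : (n + 1) / D ≤ s / D := Nat.div_le_div_right (by omega)
      rw [Nat.succ_div, if_pos (Nat.dvd_of_mod_eq_zero b)] at e1
      omega

end Pool.Agent.P.MP_ba7db8_lc.Fix
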