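import Mathlib
import Pool.Agent.P.MP_ba7db8_lc.Reduction
import Pool.Agent.P.MP_ba7db8_lc.Fix.Sys
import Pool.Agent.P.MP_ba7db8_lc.Fix.Colour

/-!
The reduction as a function on bit strings, and its polynomial running time.
-/

namespace Pool.Agent.P.MP_ba7db8_lc.Fix

open Pool.Agent.Lib.Helper47

set_option maxHeartbeats 400000

section

variable {α β : Type} [Enc α] [Enc β]

theorem ptp_const (P : Prop) : PTP fun _ : α => P := PT.const _

theorem ptp_fex {ι : Type} [Fintype ι] {q : α → ι → Prop} (h : ∀ t, PTP fun a => q a t) :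
    PTP fun a => ∃ t, q a t := by
  classical
  have key : ∀ s : Finset ι, PTP fun a => ∃ t ∈ s, q a t := by
    intro s
    induction s using Finset.induction_on with
    | empty => exact (ptp_const False).of_iff fun a => by simp
    | insert t s _ ih => exact ((h t).or ih).of_iff fun a => by simp
  exact (key Finset.univ).of_iff fun a => by simp

theorem ptp_cases {f : α → ℕ} {q : α → ℕ → Prop} (b : ℕ) (hf : PT f) (hb : ∀ a, f a < b)
    (h : ∀ c, PTP fun a => q a c) : PTP fun a => q a (f a) :=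
  (ptp_fex (q := fun a (c : Fin b) => f a = c ∧ q a c) fun c =>
    (PTP.eq hf (PT.const _)).and (h c)).of_iff fun a =>
      ⟨fun ⟨_, h1, h2⟩ => h1 ▸ h2, fun h => ⟨⟨f a, hb a⟩, rfl, h⟩⟩

theorem pt_table (F : ℕ → ℕ → ℕ) (b : ℕ) {f₁ f₂ : α → ℕ} (h₁ : PT f₁) (h₂ : PT f₂)
    (hb : ∀ a, f₁ a < b ∧ f₂ a < b) : PT fun a => F (f₁ a) (f₂ a) := by
  have h : PT fun y : ℕ × ℕ => if y.1 < b ∧ y.2 < b then F y.1 y.2 else 0 := by
    refine PT.of_table _ (Finset.range b ×ˢ Finset.range b).toList 0 fun y hy => ?_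
    simp only [Finset.mem_toList, Finset.mem_product, Finset.mem_range] at hy
    exact if_neg hy
  exact (PT.comp h (PT.prodMk h₁ h₂)).of_eq fun a => if_pos (hb a)

variable {p : ℕ} [Fact p.Prime]

/-- Polynomial-time sequences of residues. -/
def PTS (δ : α → ℕ → ZMod p) : Prop := PT fun y : α × ℕ => (δ y.1 y.2).val

omit [Fact p.Prime] in
theorem PTS.app {δ : α → ℕ → ZMod p} (h : PTS δ) {f : β → α} {j : β → ℕ} (hf : PT f)
    (hj : PT j) : PT fun b => (δ (f b) (j b)).val :=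
  PT.comp (f := fun y : α × ℕ => (δ y.1 y.2).val) h (PT.prodMk hf hj)

theorem PTS.neg {δ : α → ℕ → ZMod p} (h : PTS δ) : PTS fun a => -δ a :=
  (pt_table (fun c _ => (-(c : ZMod p)).val) p h h fun _ => ⟨ZMod.val_lt _, ZMod.val_lt _⟩).of_eq
    fun y => by simp

theorem PTS.atom {δ : α → ℕ → ZMod p} (h : PTS δ) (Φ : ZMod p → Prop) {f : β → α} {j : β → ℕ}
    (hf : PT f) (hj : PT j) : PTP fun b => Φ (δ (f b) (j b)) :=
  (ptp_cases (q := fun _ c => Φ (c : ZMod p)) p (h.app hf hj) (fun _ => ZMod.val_lt _)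
    fun _ => ptp_const _).of_iff fun b => by simp

theorem PTS.atom2 {δ : α → ℕ → ZMod p} (h : PTS δ) (Φ : ZMod p × ZMod p → Prop) {f : β → α}
    {j : β → ℕ} (hf : PT f) (hj : PT j) : PTP fun b => Φ (pr (δ (f b)) (j b)) :=
  (PTP.table (fun a b _ _ => Φ ((a : ZMod p), (b : ZMod p))) p
    (h.app hf (j := fun b => 2 * j b) (by fun_prop))
    (h.app hf (j := fun b => 2 * j b + 1) (by fun_prop)) (h.app hf hj) (h.app hf hj)
    fun _ => ⟨ZMod.val_lt _, ZMod.val_lt _, ZMod.val_lt _, ZMod.val_lt _⟩).of_iff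
      fun b => by simp [pr]

omit [Fact p.Prime] in
theorem pt_num {δ : α → ℕ → ZMod p} (h : PTS δ) {m o : α → ℕ} (hm : PT m) (hb : PS m)
    (ho : PT o) : PT fun a => num (m a) (o a) (δ a) := by
  have h1 : PT fun y : α × ℕ => (δ y.1 (o y.1 + y.2)).val * p ^ min y.2 (m y.1) :=
    PT.mul (h.app (by fun_prop) (by fun_prop)) (PT.pow (PT.const p) (by fun_prop)
      ((ps_fst hb).mono fun _ => min_le_right _ _))
  refine (PT.sum (PT.map (g := fun a i => (δ a (o a + i)).val * p ^ min i (m a)) h1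
    (PT.range hm hb))).of_eq fun a => ?_
  refine Finset.sum_congr (s₁ := Finset.range (m a)) rfl fun i hi => ?_
  rw [min_eq_left (Finset.mem_range.1 hi).le]

theorem ptp_lead {δ : α → ℕ → ZMod p} (h : PTS δ) {m : α → ℕ} (hm : PT m) (hb : PS m)
    (hs : ∀ a, Supp (m a) (pr (δ a))) {i : α → ℕ} (hi : PT i) :
    PTP fun a => Lead (pr (δ a)) (i a) := by
  have h1 : PTP fun a => ∀ j < m a, i a < j → pr (δ a) j = 0 :=
    PTP.ball hm hb ((PTP.lt (by fun_prop) (by fun_prop)).imp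
      (h.atom2 (fun x => x = 0) (f := Prod.fst) (j := Prod.snd) (by fun_prop) (by fun_prop)))
  refine ((h.atom2 (fun x => x ≠ 0) PT.id hi).and h1).of_iff fun a => and_congr_right fun _ =>
    ⟨fun h j hj => ?_, fun h j _ hj => h j hj⟩
  by_cases c : j < m a
  · exact h j c hj
  · exact hs a j (not_lt.1 c)

theorem ptp_RT {δ : α → ℕ → ZMod p} (h : PTS δ) {m : α → ℕ} (hm : PT m) (hb : PS m)
    (hs : ∀ a, Supp (m a) (pr (δ a))) (s t : (ZMod p × ZMod p) × (ZMod p × ZMod p) × ZMod p × ZMod p) :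
    PTP fun a => RT (m a) (pr (δ a)) s t := by
  have h' : PTS fun y : α × ℕ => δ y.1 := h.app (by fun_prop) (by fun_prop)
  have a1 : ∀ Φ : ZMod p × ZMod p → Prop, PTP fun y : α × ℕ => Φ (pr (δ y.1) (y.2 + 1)) :=
    fun Φ => h.atom2 Φ (f := Prod.fst) (j := fun y => y.2 + 1) (by fun_prop) (by fun_prop)
  have a2 : ∀ Φ : ZMod p × ZMod p → Prop, PTP fun y : α × ℕ => Φ (pr (δ y.1) y.2) :=
    fun Φ => h.atom2 Φ (f := Prod.fst) (j := Prod.snd) (by fun_prop) (by fun_prop)
  have h1 : PTP fun a => ∀ j < m a, pr (δ a) j = 0 := PTP.ball hm hb (a2 fun x => x = 0)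
  have h2 : PTP fun a => ∀ i < m a, Lead (pr (δ a)) (i + 1) →
      (s.2.1 ≠ 0 → t.2.1 ≠ 0 → t.2.1 = s.2.1 + pr (δ a) (i + 1) → t.2.2 = s.2.2 + pr (δ a) i) ∧
      (t.2.1 = pr (δ a) (i + 1) → s.2.1 ≠ pr (δ a) (i + 1) → s.2.1 ≠ -pr (δ a) (i + 1) →
        t.2.2 ≠ pr (δ a) i → s.2.1 = t.2.2 - pr (δ a) i) :=
    PTP.ball hm hb ((ptp_lead h' (m := fun y => m y.1) (by fun_prop) (ps_fst hb)
      (fun y => hs y.1) (i := fun y => y.2 + 1) (by fun_prop)).imp
      (((ptp_const _).imp ((ptp_const _).imp ((a1 fun x => t.2.1 = s.2.1 + x).imp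
        (a2 fun x => t.2.2 = s.2.2 + x)))).and
      ((a1 fun x => t.2.1 = x).imp ((a1 fun x => s.2.1 ≠ x).imp ((a1 fun x => s.2.1 ≠ -x).imp
        (a2 fun x => t.2.2 ≠ x → s.2.1 = t.2.2 - x))))))
  refine ((h.atom2 (fun x => t.1 = s.1 + x) PT.id (j := fun a => m a - 1) (by fun_prop)).and
    ((ptp_const (s.1 ≠ 0 → s.2.1 = s.1)).and ((h1.imp (ptp_const (s.2 = t.2))).and (h2.and
      ((ptp_lead h hm hb hs (PT.const 0)).imp (h.atom2
        (fun x => t.2.1 = x → s.2.1 ≠ x → s.2.1 ≠ -x → s.2.1 = 0) PT.id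
          (PT.const 0))))))).of_iff fun a => ?_
  refine and_congr_right fun _ => and_congr_right fun _ => and_congr (imp_congr_left
    ⟨fun h j => ?_, fun h j _ => h j⟩) (and_congr_left fun _ =>
      ⟨fun h i hi => h i ?_ hi, fun h i _ => h i⟩)
  · by_cases c : j < m a
    · exact h j c
    · exact hs a j (not_lt.1 c)
  · by_contra c
    exact hi.1 (hs a _ (by omega))

theorem ptp_Rel {δ : α → ℕ → ZMod p} (h : PTS δ) {m : α → ℕ} (hm : PT m) (hb : PS m)
    (hs : ∀ a, Supp (m a) (pr (δ a)))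
    {P : α → ℕ → ZMod p × ZMod p → ℕ → ZMod p × ZMod p → Prop}
    (hP : ∀ (n n' : α → ℕ) v v', PT n → PT n' → PTP fun a => P a (n a) v (n' a) v')
    (σ σ' : Lab (ZMod p)) : PTP fun a => Rel (m a) (P a) (δ a) σ σ' :=
  (ptp_RT h hm hb hs _ _).and (((ptp_const _).imp ((PTP.ball hm hb (h.atom (fun x => x = 0)
    (f := Prod.fst) (j := Prod.snd) (by fun_prop) (by fun_prop))).imp (ptp_const _))).and
    (((ptp_const _).imp ((PTP.ball hm hb (h.atom (fun x => x = 0) (f := Prod.fst)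
      (j := fun y => m y.1 + y.2) (by fun_prop) (by fun_prop))).imp (ptp_const _))).and
    ((ptp_const _).imp ((ptp_const _).imp
      (hP _ _ _ _ (pt_num h.neg hm hb (PT.const 0)) (pt_num h hm hb hm))))))

theorem ptp_Bad0 {F B S : Type} [Field F] [DecidableEq B] [AddCommGroup B] [Fintype B]
    [AddCommGroup S] (t0 t1 : B) {z : α → Prop} {R1 R2 : α → S → S → Prop} (hz : PTP z)
    (h1 : ∀ σ σ', PTP fun a => R1 a σ σ') (h2 : ∀ σ σ', PTP fun a => R2 a σ σ')
    (w : B × (B → F) × S × S) : PTP fun a => Bad0 t0 t1 (z a) (R1 a) (R2 a) w :=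
  (hz.and (ptp_const _)).or ((ptp_const _).and (PTP.not (ptp_fex fun _ => ptp_fex fun _ =>
    (ptp_const _).and ((ptp_const _).and ((ptp_const _).and ((ptp_const _).and
      (((ptp_const _).imp ((ptp_const _).imp (h1 _ _))).and
        ((ptp_const _).imp ((ptp_const _).imp (h2 _ _))))))))))

end

/-- The part of the group that does not depend on the input. -/
abbrev W (p : ℕ) : Type :=
  (Fin 3 → ZMod p) × ((Fin 3 → ZMod p) → ZMod p) × Lab (ZMod p) × Lab (ZMod p)

/-- The additional constants of the reduction. -/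
structure Ex (p : ℕ) where
  /-- number of constant coordinates -/
  c : ℕ
  /-- number of colours -/
  K : ℕ
  /-- logarithm of a quotient -/
  T : ℕ → ℕ → ZMod p
  /-- same coset -/
  S : ℕ → ℕ → Prop
  /-- constant part of a difference -/
  low : ℕ → ℕ → W p

namespace Ex

variable {p : ℕ} [Fact p.Prime] (e : Ex p) (q : Par) (x : List Bool)

/-- exponent of the group -/
def n : ℕ := e.c + 2 * (q.l x + 1)

/-- the variable part of a difference -/
def dl (u v i : ℕ) : ZMod p :=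
  if i < 2 * (q.l x + 1) then e.T (dig q.g u (e.c + i)) (dig q.g v (e.c + i)) else 0

/-- adjacency in the output graph -/
def adj (u v : ℕ) : Prop :=
  (∀ i < e.n q x, e.S (dig q.g u i) (dig q.g v i)) ∧
    Bad0 0 1 (∀ i < 2 * (q.l x + 1), e.dl q x u v i = 0)
      (Rel (q.l x + 1) (Src (q.Gam x) (q.nv x) (q.d ^ q.M)) (e.dl q x u v))
      (Rel (q.l x + 1) (Src (q.Gam x) (q.nv x) (q.d ^ q.M)) (-e.dl q x u v))
      (e.low (u % q.g ^ e.c) (v % q.g ^ e.c))

open Classical in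
/-- the reduction -/
noncomputable def out : List Bool :=
  pair e.K.bits ((List.range (q.g ^ e.n q x)).flatMap fun u =>
    (List.range (q.g ^ e.n q x)).map fun v => decide (e.adj q x u v))

variable {α : Type} [Enc α] {X : α → List Bool}

omit [Fact p.Prime] in
theorem pt_n (hX : PT X) : PT fun a => e.n q (X a) :=
  PT.add (PT.const _) (PT.mul (PT.const 2) (PT.add (q.pt_l hX) (PT.const 1)))

omit [Fact p.Prime] in
theorem ps_n (hX : PT X) : PS fun a => e.n q (X a) :=
  (PB.const _).add ((PB.const 2).mul ((q.ps_l hX).add (PB.const 1)))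

omit [Fact p.Prime] in
theorem ps_N (hX : PT X) : PS fun a => q.g ^ e.n q (X a) :=
  (((ps_pow_size q.g (q.ps_nv hX)).pow 2).mul (PB.const (q.g ^ (e.c + 2)))).mono fun a => by
    unfold n Par.l
    rw [← pow_mul, ← pow_add]
    apply le_of_eq
    congr 1
    ring

theorem pts_dl (hg : 0 < q.g) (hX : PT X) {u v : α → ℕ} (hu : PT u) (hv : PT v) :
    PTS fun a => e.dl q (X a) (u a) (v a) := by
  have hX' : PT fun y : α × ℕ => X y.1 := by fun_prop
  have h1 : PT fun y : α × ℕ => (e.T (dig q.g (u y.1) (min (e.c + y.2) (e.n q (X y.1))))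
      (dig q.g (v y.1) (min (e.c + y.2) (e.n q (X y.1))))).val :=
    pt_table (fun a b => (e.T a b).val) q.g
      (pt_dig _ (by fun_prop) (by fun_prop) (e.pt_n q hX') (e.ps_n q hX'))
      (pt_dig _ (by fun_prop) (by fun_prop) (e.pt_n q hX') (e.ps_n q hX'))
      fun _ => ⟨Nat.mod_lt _ hg, Nat.mod_lt _ hg⟩
  refine (PTP.ite (PTP.lt (f := Prod.snd) (by fun_prop)
    (PT.mul (PT.const 2) (PT.add (q.pt_l hX') (PT.const 1)))) h1 (PT.const 0)).of_eq fun y => ?_
  simp only [dl]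
  split_ifs with h
  · rw [min_eq_left (by unfold n; omega)]
  · simp

theorem ptp_adj (hd : 0 < q.d) (hg : 0 < q.g) (hX : PT X) {u v : α → ℕ} (hu : PT u)
    (hv : PT v) : PTP fun a => e.adj q (X a) (u a) (v a) := by
  have hX' : PT fun y : α × ℕ => X y.1 := by fun_prop
  have hm : PT fun a => q.l (X a) + 1 := PT.add (q.pt_l hX) (PT.const 1)
  have hb : PS fun a => q.l (X a) + 1 := (q.ps_l hX).add (PB.const 1)
  have hδ := e.pts_dl q hg hX hu hv
  have hs : ∀ a j, 2 * (q.l (X a) + 1) ≤ j → e.dl q (X a) (u a) (v a) j = 0 := fun a j hj =>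
    if_neg (by omega)
  have hP : ∀ (n n' : α → ℕ) (w w' : ZMod p × ZMod p), PT n → PT n' →
      PTP fun a => Src (q.Gam (X a)) (q.nv (X a)) (q.d ^ q.M) (n a) w (n' a) w' :=
    fun n n' w w' hn hn' => ((PTP.eq hn hn').imp (ptp_const _)).and (((ptp_const _).imp
      ((ptp_const _).imp ((PTP.eq hn hn').not.imp (q.ptp_Gam hd hX hn hn')))).and
      (((PTP.eq hn (by fun_prop)).imp (ptp_const _)).and
      (((PTP.eq (by fun_prop) (PT.const 0)).imp (ptp_const _)).and
      ((PTP.lt hn (q.pt_nv hX)).imp ((PTP.eq (by fun_prop) (PT.const 0)).imp (ptp_const _))))))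
  refine PTP.and ?_ ?_
  · have h : PTP fun a => ∀ i < e.n q (X a), e.S (dig q.g (u a) (min i (e.n q (X a))))
        (dig q.g (v a) (min i (e.n q (X a)))) :=
      PTP.ball (e.pt_n q hX) (e.ps_n q hX) (PTP.table (fun a b _ _ => e.S a b) q.g
        (pt_dig _ (by fun_prop) (by fun_prop) (e.pt_n q hX') (e.ps_n q hX'))
        (pt_dig _ (by fun_prop) (by fun_prop) (e.pt_n q hX') (e.ps_n q hX'))
        (PT.const 0) (PT.const 0) fun _ => ⟨Nat.mod_lt _ hg, Nat.mod_lt _ hg, hg, hg⟩)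
    exact h.of_iff fun a => forall₂_congr fun i hi => by rw [min_eq_left hi.le]
  · refine ptp_cases (q := fun a c => Bad0 0 1 _ _ _ (e.low c (v a % q.g ^ e.c))) (q.g ^ e.c)
      (f := fun a => u a % q.g ^ e.c) (by fun_prop) (fun _ => Nat.mod_lt _ (pow_pos hg _))
      fun c => ?_
    refine ptp_cases (q := fun a c' => Bad0 0 1 _ _ _ (e.low c c')) (q.g ^ e.c)
      (f := fun a => v a % q.g ^ e.c) (by fun_prop) (fun _ => Nat.mod_lt _ (pow_pos hg _))
      fun c' => ?_
    refine ptp_Bad0 0 1 (PTP.ball (PT.mul (PT.const 2) hm) ((PB.const 2).mul hb)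
      (hδ.atom (fun x => x = 0) (f := Prod.fst) (j := Prod.snd) (by fun_prop) (by fun_prop)))
      (ptp_Rel hδ hm hb (fun a j hj => ?_) hP) (ptp_Rel hδ.neg hm hb (fun a j hj => ?_) hP) _
    · rw [pr, hs a _ (by omega), hs a _ (by omega)]
      rfl
    · rw [pr, Pi.neg_apply, Pi.neg_apply, hs a _ (by omega), hs a _ (by omega), neg_zero]
      rfl

theorem pt_out (hd : 0 < q.d) (hg : 0 < q.g) : PT (e.out q) := by
  classical
  unfold out
  refine Par.pt_pair (PT.const _) ?_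
  refine PT.flatMap (g := fun x u => (List.range (q.g ^ e.n q x)).map fun v =>
    decide (e.adj q x u v)) ?_
    (PT.range (PT.pow (PT.const _) (e.pt_n q PT.id) (e.ps_n q PT.id)) (e.ps_N q PT.id))
  refine PT.map (g := fun (y : List Bool × ℕ) v => decide (e.adj q y.1 y.2 v)) ?_
    (PT.range (PT.pow (PT.const _) (e.pt_n q (by fun_prop)) (e.ps_n q (by fun_prop)))
      (e.ps_N q (by fun_prop)))
  exact e.ptp_adj q hd hg (by fun_prop) (by fun_prop) (by fun_prop)

end Ex

end Pool.Agent.P.MP_ba7db8_lc.Fix
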