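import Mathlib
import Pool.Agent.P.MP_ba7db8_lc.Main
import Pool.Agent.P.MP_ba7db8_lc.Fix.Poly
import Pool.Agent.P.MP_ba7db8_lc.Fix.Lift

/-!
Colourability with a fixed number of colours is hard on Cayley graphs of powers of a group.
-/

namespace Pool.Agent.P.MP_ba7db8_lc.Fix

open Pool.Agent.Lib.Helper47 Turing

set_option maxHeartbeats 800000

theorem dig_mod (g u : ℕ) {c i : ℕ} (hi : i < c) : dig g (u % g ^ c) i = dig g u i := by
  unfold dig
  obtain ⟨k, rfl⟩ := Nat.exists_eq_add_of_lt hi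
  rw [add_assoc, pow_add, Nat.mod_mul_right_div_self, pow_succ', Nat.mod_mul_right_mod]

theorem exists_equiv (p : ℕ) [Fact p.Prime] (V : Type) [AddCommGroup V] [Module (ZMod p) V]
    [Finite V] : ∃ (c : ℕ) (ε : (Fin c → ZMod p) →+ V), Function.Surjective ε :=
  ⟨_, (Module.finBasis (ZMod p) V).equivFun.symm.toAddEquiv.toAddMonoidHom,
    (Module.finBasis (ZMod p) V).equivFun.symm.surjective⟩

instance (p : ℕ) [Fact p.Prime] : Fintype (Lab (ZMod p)) := inferInstance

theorem main (G : Type*) [Group G] [Finite G] {p : ℕ} (hp : p.Prime) (hpd : p ∣ Nat.card G)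
    (L : Set (List Bool)) (hL : InNP L) :
    ∃ f : List Bool → List Bool, Nonempty (TM2ComputableInPolyTime id id f) ∧
      ∀ x, ∃ (N : ℕ) (X : SimpleGraph (Fin N)),
        f x = pair (p ^ (p ^ 3 + 18)).bits (adjBits X) ∧
        (∃ n ≥ 1, ∃ C : Set (Fin n → G), 1 ∉ C ∧ C⁻¹ = C ∧
          Nonempty (X ≃g SimpleGraph.mulCayley C)) ∧
        (x ∈ L ↔ X.chromaticNumber ≤ (p ^ (p ^ 3 + 18) : ℕ)) := by
  classical
  obtain ⟨V, P, ⟨h⟩, hV⟩ := hL
  have := Fintype.ofFinite G
  have := Fact.mk hp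
  rw [Nat.card_eq_fintype_card] at hpd
  have hg : 2 ≤ Fintype.card G := hp.two_le.trans (Nat.le_of_dvd Fintype.card_pos hpd)
  obtain ⟨z, hz⟩ := exists_prime_orderOf_dvd_card p hpd
  obtain ⟨lg, hlg⟩ := exists_lg hz
  let e : Fin (Fintype.card G) ≃ G := (Fintype.equivFin G).symm
  let gel : ℕ → G := fun a => if h : a < Fintype.card G then e ⟨a, h⟩ else 1
  obtain ⟨q, hqg, -, -, hd, hq⟩ := exists_par h P (Fintype.card G) p hg fun _ _ _ _ => True
  obtain ⟨c, ε, hε⟩ := exists_equiv p (W p)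
  let E : Ex p := ⟨c, p ^ (p ^ 3 + 18), fun a b => lg (gel b) - lg (gel a),
    fun a b => (gel a)⁻¹ * gel b ∈ Subgroup.zpowers z,
    fun a b => ε fun i => lg (gel (dig q.g b i)) - lg (gel (dig q.g a i))⟩
  refine ⟨E.out q, PT.computableInPolyTime id id (E.out q) (E.pt_out q hd (by omega))
    fun _ => rfl, fun x => ?_⟩
  set m := q.l x + 1 with hm
  let φ : Fin (Fintype.card G ^ (c + 2 * m)) ≃ (Fin (c + 2 * m) → G) :=
    finFunctionFinEquiv.symm.trans (Equiv.arrowCongr (Equiv.refl _) e)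
  have hφ : ∀ u i, φ u i = gel (dig q.g u i) := by
    intro u i
    have hlt : dig q.g u i < Fintype.card G := by
      rw [hqg]
      exact Nat.mod_lt _ (by omega)
    simp only [gel, hlt, dif_pos]
    change e (finFunctionFinEquiv.symm u i) = _
    congr 1
    ext
    simp [dig, hqg]
  let π : (Fin (c + 2 * m) → ZMod p) →+ (Fin (2 * m) → ZMod p) × W p :=
    { toFun := fun v => (fun j => v (Fin.natAdd c j), ε fun i => v (Fin.castAdd _ i))
      map_zero' := Prod.ext rfl ε.map_zero
      map_add' := fun v w => Prod.ext rfl (ε.map_add _ _) }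
  have hπ : Function.Surjective π := by
    rintro ⟨a, w⟩
    obtain ⟨w, rfl⟩ := hε w
    refine ⟨Fin.append w a, Prod.ext (funext fun j => Fin.append_right _ _ j) ?_⟩
    change ε (fun i => Fin.append w a (Fin.castAdd _ i)) = ε w
    simp only [Fin.append_left]
  let R : (Fin (2 * m) → ZMod p) → Lab (ZMod p) → Lab (ZMod p) → Prop := fun δ =>
    Rel m (Src (q.Gam x) (q.nv x) (q.d ^ q.M)) (ext δ)
  let Bd : (Fin (2 * m) → ZMod p) × W p → Prop := Bad 0 1 R
  have h0 : ¬ Bd 0 := not_bad_zero 0 1 R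
  have hs : ∀ w, Bd w → Bd (-w) := fun w hw => hw.neg
  let X := (SimpleGraph.mulCayley (conn z lg π Bd)).comap φ
  have hadj : ∀ u v, X.Adj u v ↔ E.adj q x u v := by
    intro u v
    change (SimpleGraph.mulCayley (conn z lg π Bd)).Adj (φ u) (φ v) ↔ _
    rw [adj_conn hlg π h0 hs]
    refine and_congr ⟨fun h i hi => ?_, fun h i => ?_⟩ ?_
    · simpa only [hφ] using h ⟨i, hi⟩
    · simpa only [hφ] using h i i.2
    · have e1 : ext (π fun i => lg (φ v i) - lg (φ u i)).1 = E.dl q x u v := by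
        funext i
        unfold ext Ex.dl
        split_ifs with hi
        · change lg (φ v _) - lg (φ u _) = _
          rw [hφ, hφ]
          rfl
        · rfl
      have e2 : (π fun i => lg (φ v i) - lg (φ u i)).2 =
          E.low (u % q.g ^ E.c) (v % q.g ^ E.c) := by
        change ε _ = ε _
        congr 1
        funext i
        beta_reduce
        rw [hφ, hφ, dig_mod _ _ i.2, dig_mod _ _ i.2]
        rfl
      change Bad0 0 1 _ (Rel m _ (ext _)) (Rel m _ (ext _)) _ ↔ _
      rw [ext_neg, ext_eq_zero, e1, e2]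
  refine ⟨_, X, ?_, ⟨c + 2 * m, by omega, _, one_not_mem_conn z lg π h0, conn_inv hlg π hs,
    ⟨SimpleGraph.Iso.comap φ _⟩⟩, ?_⟩
  · unfold Ex.out adjBits
    congr 1
    have hr : ∀ n, List.range n = (List.finRange n).map Fin.val := fun n => by
      apply List.ext_getElem <;> simp
    have hN : q.g ^ E.n q x = Fintype.card G ^ (c + 2 * m) := by rw [hqg]; rfl
    rw [hN, hr, List.flatMap_map]
    congr 1
    funext u
    rw [List.map_map]
    congr 1
    funext v
    simp only [Function.comp, hadj]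
  · have hD : 0 < q.d ^ q.M := pow_pos hd _
    have hk : 2 ≤ q.k x := by
      have h1 : (q.T x + 1) * q.J x + 5 < 2 ^ q.m x := Nat.lt_size_self _
      have h2 : 2 ^ q.m x ≤ q.k x := Nat.pow_le_pow_left (hqg ▸ hg) _
      omega
    have hN : q.k x * q.d ^ q.M ≤ p ^ m := by
      calc _ ≤ 2 ^ q.l x := (Nat.lt_size_self _).le
        _ ≤ 2 ^ m := Nat.pow_le_pow_right (by norm_num) (by omega)
        _ ≤ _ := Nat.pow_le_pow_left hp.two_le _
    have hcard : Fintype.card (((Fin 3 → ZMod p) → ZMod p) × Lab (ZMod p) × Lab (ZMod p)) =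
        p ^ (p ^ 3 + 18) := by
      simp only [Fintype.card_prod, Fintype.card_fun, ZMod.card, Fintype.card_fin]
      ring
    have h5 : 5 ≤ Fintype.card (Fin 3 → ZMod p) := by
      simp only [Fintype.card_fun, ZMod.card, Fintype.card_fin]
      exact le_trans (by norm_num) (Nat.pow_le_pow_left hp.two_le 3)
    rw [hV, ← hq, SimpleGraph.chromaticNumber_congr (SimpleGraph.Iso.comap φ _),
      SimpleGraph.chromaticNumber_le_iff_colorable, colorable_conn hlg π hπ h0 hs,
      ← src_iff (F := ZMod p) (Γ := q.Gam x) hD hk (fun s t h => ⟨h.1, h.2.1.1⟩) hN, ← csp_iff (by omega)]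
    constructor
    · rintro ⟨L1, L2, h12⟩
      obtain ⟨col, hcol⟩ := col_of_sol (F := ZMod p) (B := Fin 3 → ZMod p) (R := R)
        zero_ne_one L1 L2 h12
      exact ⟨fun a => Fintype.equivFinOfCardEq hcard (col a), fun a b hab e =>
        hcol a b hab ((Fintype.equivFinOfCardEq hcard).injective e)⟩
    · rintro ⟨col, hcol⟩
      exact sol_of_col (R := R) h5 zero_ne_one (by rw [hcard, Fintype.card_fin]) col hcol

end Pool.Agent.P.MP_ba7db8_lc.Fix
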